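import Mathlib
import Pool.Agent.H.MP_75a0ab_co.A

namespace Pool.Agent.Results.MP_75a0ab_co.NotDense

open Set Metric
open Pool.Agent.H.MP_75a0ab_co
open scoped RealInnerProductSpace Pointwise

/-- Euclidean space. -/
abbrev E (d : ℕ) := EuclideanSpace ℝ (Fin d)

/-- Origin symmetric convex body. -/
def SymBody {d : ℕ} (K : Set (E d)) : Prop :=
  IsCompact K ∧ Convex ℝ K ∧ (interior K).Nonempty ∧ K = -K

/-- A totally separable packing: the interiors are pairwise disjoint, and any two members are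
separated by a hyperplane that misses the interior of every member. -/
def TotSep {d : ℕ} {ι : Type} (C : ι → Set (E d)) : Prop :=
  ∀ i j, i ≠ j → Disjoint (interior (C i)) (interior (C j)) ∧
    ∃ (a : E d) (c : ℝ), a ≠ 0 ∧ (∀ z ∈ C i, ⟪a, z⟫ ≤ c) ∧ (∀ z ∈ C j, c ≤ ⟪a, z⟫) ∧
      ∀ k, ∀ z ∈ interior (C k), ⟪a, z⟫ ≠ c

/-- The translates `v i + K` form a separable Hadwiger configuration of `K`. -/
def SepHadwiger {d n : ℕ} (K : Set (E d)) (v : Fin n → E d) : Prop :=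
  (∀ i, ((v i +ᵥ K) ∩ K).Nonempty) ∧
    TotSep (fun o : Option (Fin n) => o.elim K (fun i => v i +ᵥ K))

/-- The separable Hadwiger number. -/
noncomputable def HSep {d : ℕ} (K : Set (E d)) : ℕ∞ :=
  ⨆ (n : ℕ) (v : Fin n → E d) (_ : SepHadwiger K v), (n : ℕ∞)

theorem int_lt {d : ℕ} {S : Set (E d)} {a : E d} {c : ℝ} (ha : a ≠ 0) (h : ∀ z ∈ S, ⟪a, z⟫ ≤ c)
    {z : E d} (hz : z ∈ interior S) : ⟪a, z⟫ < c := by
  have k : ContinuousAt (fun s : ℝ => z + s • a) 0 := by fun_prop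
  have := k.preimage_mem_nhds (t := S) (by simpa using mem_interior_iff_mem_nhds.1 hz)
  obtain ⟨s, hs1, hs2⟩ := ((Filter.Eventually.filter_mono nhdsWithin_le_nhds this).and
    (self_mem_nhdsWithin (s := Ioi (0 : ℝ)))).exists
  have h1 := h _ hs1
  have h2 : (0 : ℝ) < s := hs2
  have h3 : 0 < ⟪a, a⟫ := real_inner_self_pos.2 ha
  rw [inner_add_right, inner_smul_right] at h1
  nlinarith

theorem int_gt {d : ℕ} {S : Set (E d)} {a : E d} {c : ℝ} (ha : a ≠ 0) (h : ∀ z ∈ S, c ≤ ⟪a, z⟫)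
    {z : E d} (hz : z ∈ interior S) : c < ⟪a, z⟫ := by
  have := int_lt (a := -a) (c := -c) (neg_ne_zero.2 ha)
    (fun z hz => by rw [inner_neg_left]; linarith [h z hz]) hz
  rw [inner_neg_left] at this
  linarith

theorem totSep_of {d : ℕ} {ι : Type} (C : ι → Set (E d)) (o : ι)
    (h : ∀ i, i ≠ o → ∃ (a : E d) (c : ℝ), a ≠ 0 ∧ (∀ z ∈ C i, c ≤ ⟪a, z⟫) ∧
      ∀ j, j ≠ i → ∀ z ∈ C j, ⟪a, z⟫ ≤ c) : TotSep C := by
  have key : ∀ i j, i ≠ j → j ≠ o → ∃ (a : E d) (c : ℝ), a ≠ 0 ∧ (∀ z ∈ C i, ⟪a, z⟫ ≤ c) ∧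
      (∀ z ∈ C j, c ≤ ⟪a, z⟫) ∧ ∀ k, ∀ z ∈ interior (C k), ⟪a, z⟫ ≠ c := fun i j hij hj => by
    obtain ⟨a, c, ha, h1, h2⟩ := h j hj
    refine ⟨a, c, ha, h2 i hij, h1, fun k z hz => ?_⟩
    by_cases e : k = j
    · exact (int_gt ha h1 (e ▸ hz)).ne'
    · exact (int_lt ha (h2 k e) hz).ne
  intro i j hij
  have key2 : ∃ (a : E d) (c : ℝ), a ≠ 0 ∧ (∀ z ∈ C i, ⟪a, z⟫ ≤ c) ∧
      (∀ z ∈ C j, c ≤ ⟪a, z⟫) ∧ ∀ k, ∀ z ∈ interior (C k), ⟪a, z⟫ ≠ c := by
    by_cases e : j = o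
    · obtain ⟨a, c, ha, h1, h2, h3⟩ := key j i hij.symm (e ▸ hij)
      refine ⟨-a, -c, neg_ne_zero.2 ha, fun z hz => ?_, fun z hz => ?_, fun k z hz => ?_⟩ <;>
        rw [inner_neg_left]
      · linarith [h2 z hz]
      · linarith [h1 z hz]
      · exact fun e => h3 k z hz (neg_injective e)
    · exact key i j hij e
  refine ⟨?_, key2⟩
  obtain ⟨a, c, ha, h1, h2, -⟩ := key2
  exact disjoint_left.2 fun z z1 z2 => lt_asymm (int_lt ha h1 z1) (int_gt ha h2 z2)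

theorem config {d n : ℕ} {K : Set (E d)} (hK : K = -K) (f y : Fin n → E d) (hy : ∀ i, y i ∈ K)
    (hm : ∀ i, ∀ z ∈ K, ⟪f i, z⟫ ≤ ⟪f i, y i⟫) (hf : ∀ i, f i ≠ 0)
    (hn : ∀ i j, i ≠ j → ⟪f i, y j⟫ ≤ 0) : SepHadwiger K (fun i => (2 : ℝ) • y i) := by
  have ng : ∀ z ∈ K, -z ∈ K := fun z hz => by rw [hK]; simpa using hz
  refine ⟨fun i => ⟨y i, ⟨-y i, ng _ (hy i), ?_⟩, hy i⟩, totSep_of _ none fun i hi => ?_⟩
  · simp only [vadd_eq_add]; module
  · obtain ⟨i, rfl⟩ := Option.ne_none_iff_exists'.1 hi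
    refine ⟨f i, ⟪f i, y i⟫, hf i, ?_, ?_⟩
    · rintro _ ⟨z, hz, rfl⟩
      have := hm i _ (ng z hz)
      simp only [vadd_eq_add, inner_add_right, inner_smul_right, inner_neg_right] at *
      linarith
    · rintro (_ | j) hj
      · exact hm i
      · rintro _ ⟨z, hz, rfl⟩
        have := hm i _ hz
        have := hn i j fun e => hj (by rw [e])
        simp only [vadd_eq_add, inner_add_right, inner_smul_right] at *
        linarith

theorem main {d n : ℕ} (h : Sys d n) : ∃ K₀ : Set (E d), SymBody K₀ ∧ ∃ ε : ℝ, 0 < ε ∧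
    ∀ K : Set (E d), SymBody K → hausdorffDist K K₀ < ε → ∃ v : Fin n → E d, SepHadwiger K v := by
  obtain ⟨f', x', h1', h2'⟩ := h
  let f : Fin n → E d := fun i => WithLp.toLp 2 (f' i)
  let x : Fin n → E d := fun i => WithLp.toLp 2 (x' i)
  have e : ∀ i j, ⟪f i, x j⟫ = ∑ k, f' i k * x' j k := fun i j => by
    simp [f, x, PiLp.inner_apply, mul_comm]
  have h1 : ∀ i, ⟪f i, x i⟫ = 1 := fun i => by rw [e, h1']
  obtain ⟨θ, hθ, hθ1, hs⟩ := small (fun p : Fin n × Fin n => p.1 ≠ p.2)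
    (fun p => min (-⟪f p.1, x p.2⟫) (1 + ⟪f p.1, x p.2⟫)) (fun p hp => by
      have := h2' _ _ hp
      rw [← e] at this
      exact lt_min (by linarith) (by linarith))
  have h2 : ∀ i j, i ≠ j → -1 + θ < ⟪f i, x j⟫ ∧ ⟪f i, x j⟫ < -θ := fun i j hij => by
    have := lt_min_iff.1 (hs (i, j) hij)
    constructor <;> linarith [this.1, this.2]
  obtain ⟨M, hM, hMf, hMx⟩ : ∃ M : ℝ, 0 < M ∧ (∀ i, ‖f i‖ ≤ M) ∧ ∀ i, ‖x i‖ ≤ M := by
    refine ⟨1 + ∑ i, (‖f i‖ + ‖x i‖), by positivity, fun i => ?_, fun i => ?_⟩ <;>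
    · have := Finset.single_le_sum (f := fun i => ‖f i‖ + ‖x i‖) (s := Finset.univ)
        (fun i _ => by positivity) (Finset.mem_univ i)
      linarith [norm_nonneg (f i), norm_nonneg (x i)]
  set C : ℝ := 2 / θ with hC
  have hCθ : C * θ = 2 := by rw [hC]; field_simp
  have hC2 : 2 ≤ C := by nlinarith
  let K₀ : Set (E d) := closedBall 0 M ∩
    ⋂ p : {p : Fin n × Fin n // p.1 ≠ p.2}, {z | |⟪C • f p.1.1 + f p.1.2, z⟫| ≤ C - θ}
  have mem : ∀ z, z ∈ K₀ ↔ ‖z‖ ≤ M ∧ ∀ i j, i ≠ j → |C * ⟪f i, z⟫ + ⟪f j, z⟫| ≤ C - θ :=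
    fun z => by
      simp only [K₀, mem_inter_iff, mem_closedBall_zero_iff, mem_iInter, mem_ofPred_eq,
        inner_add_left, real_inner_smul_left, Subtype.forall, Prod.forall]
  have hx : ∀ k, x k ∈ K₀ := fun k => (mem _).2 ⟨hMx k, fun i j hij => by
    rw [abs_le]
    by_cases a : k = i
    · subst a
      have := h2 j k hij.symm
      rw [h1]; constructor <;> linarith
    have := h2 i k (Ne.symm a)
    by_cases b : k = j
    · subst b
      rw [h1]; constructor <;> nlinarith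
    have := h2 j k (Ne.symm b)
    constructor <;> nlinarith⟩
  have cpt : IsCompact K₀ := (isCompact_closedBall _ _).inter_right
    (isClosed_iInter fun p => isClosed_le (by fun_prop) continuous_const)
  have h0 : (0 : E d) ∈ interior K₀ := by
    rw [mem_interior_iff_mem_nhds]
    refine Filter.inter_mem (closedBall_mem_nhds _ hM) (Filter.iInter_mem.2 fun p => ?_)
    have : ∀ᶠ z in nhds (0 : E d), |⟪C • f p.1.1 + f p.1.2, z⟫| < C - θ :=
      ContinuousAt.eventually_lt (x₀ := 0) (by fun_prop) continuousAt_const (by simp; linarith)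
    exact this.mono fun z hz => hz.le
  have hD : 0 < (2 * C + 1) * M := by positivity
  refine ⟨K₀, ⟨cpt, ?_, ⟨0, h0⟩, ?_⟩, θ / ((2 * C + 1) * M), by positivity, fun K hK hd => ?_⟩
  · refine (convex_closedBall _ _).inter (convex_iInter fun p => ?_)
    intro u hu w hw a b ha hb hab
    simp only [mem_ofPred_eq, inner_add_right, inner_smul_right, abs_le] at *
    constructor <;> nlinarith [hu.1, hu.2, hw.1, hw.2]
  · ext z
    simp only [mem_neg, mem, norm_neg, inner_neg_right, mul_neg, ← neg_add, abs_neg]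
  set ε := θ / ((2 * C + 1) * M) with hε
  have hε2 : (2 * C + 1) * (M * ε) = θ := by rw [hε]; field_simp
  have ne : K.Nonempty := hK.2.2.1.mono interior_subset
  have fin := hausdorffEDist_ne_top_of_nonempty_of_bounded ne ⟨0, interior_subset h0⟩
    hK.1.isBounded cpt.isBounded
  have lip : ∀ i (u w : E d), dist u w < ε → ⟪f i, u⟫ ≤ ⟪f i, w⟫ + M * ε := fun i u w huw => by
    have a := real_inner_le_norm (f i) (u - w)
    rw [inner_sub_right, ← dist_eq_norm] at a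
    nlinarith [hMf i, norm_nonneg (f i), @dist_nonneg _ _ u w]
  choose y hy hm using fun i => hK.1.exists_isMaxOn ne (f := fun z => ⟪f i, z⟫) (by fun_prop)
  refine ⟨_, config hK.2.2.2 f y hy (fun i z hz => hm i hz) (fun i e => ?_) fun j i hij => ?_⟩
  · have := h1 i
    rw [e, inner_zero_left] at this
    exact zero_ne_one this
  · obtain ⟨u, hu, du⟩ := exists_dist_lt_of_hausdorffDist_lt' (hx i) hd fin
    obtain ⟨z, hz, dz⟩ := exists_dist_lt_of_hausdorffDist_lt (hy i) hd fin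
    have a1 := lip i (x i) u (by rwa [dist_comm])
    have a2 : ⟪f i, u⟫ ≤ ⟪f i, y i⟫ := hm i hu
    have a3 := lip i _ _ dz
    have a4 := lip j _ _ dz
    have a5 := (abs_le.1 (((mem z).1 hz).2 i j hij.symm)).2
    rw [h1] at a1
    have a6 : C * (1 - 2 * (M * ε)) ≤ C * ⟪f i, z⟫ :=
      mul_le_mul_of_nonneg_left (by linarith) (by linarith)
    nlinarith

theorem result (d : ℕ) (hd : 7 ≤ d) : ∃ K₀ : Set (E d), SymBody K₀ ∧ ∃ ε : ℝ, 0 < ε ∧
    ∀ K : Set (E d), SymBody K → hausdorffDist K K₀ < ε → ((2 * d : ℕ) : ℕ∞) < HSep K := by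
  obtain ⟨n, hn, hs⟩ := sys_all d hd
  obtain ⟨K₀, h0, ε, hε, h⟩ := main hs
  refine ⟨K₀, h0, ε, hε, fun K hK hd => ?_⟩
  obtain ⟨v, hv⟩ := h K hK hd
  exact lt_of_lt_of_le (Nat.cast_lt.2 hn) (le_iSup₂_of_le n v (le_iSup_of_le hv le_rfl))

end Pool.Agent.Results.MP_75a0ab_co.NotDense
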